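import Pool.Agent.Y191.CycLow4
import Pool.Agent.Y191.LcCan


/-!
# Minimal models of pairs which are birational to families of products of superelliptic curves

Let `(X, Δ)` be a projective pair, `X ⇢ P^v` a rational map whose image `Y` has dimension `p`, and let
`X` be birational to a fibre product over `Y'`, finite over `Y`, of `e = dim X - p` arbitrary families of
superelliptic curves `z j ^ m j = c j * ∏ k, g j k (x j) ^ a j k` (in particular of double covers of
`Y' × P^1`), the `g j k` being square free polynomials over the function field of `Y'`, of degree `d j k`,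
without common roots for given `j`. Let
`W j = ∑ k, d j k (1 - gcd (m j, a j k) / m j) + 1 - gcd (m j, ∑ k, a j k d j k) / m j`, so that the
genus of the curves is greater than `1` if `W j > 2`. Suppose that `ℓ i = 0`, `i < q`, are hyperplanes
in general position which do not contain `Y`, such that the points `ℓ i` impose independent conditions
on the forms of degree `D`, with weights `wt i ≥ 0` whose sum is greater than `(p + 1) γ`,
`γ = (v - p + D).choose (v - p)`, and that the multiplicities `e i` of the hyperplanes satisfy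
`min (#{i | e i ≠ 0}) γ ≤ γ Δ_P + ∑ i, (1 - wt i) e i` at the prime divisors `P` of `X`;
or: `p ≥ 1`, there are more than `(v + Q).choose v` general hyperplanes, `2 v m ≤ Q (m - 1)`,
`m ≥ 2`, and each `e i` is `0` or at least `m (1 - Δ_P)`. Then:

(1) if `W j > 2` for all `j` then `K_X + Δ` is big: `κ(K_X + Δ) = ν(K_X + Δ) = dim X`. The hypotheses
remain true for all boundaries `B ≥ Δ`, so `K_X + B` is big for all of them. If `(X, B)` is klt then
the `(K_X + B)`-MMP with scaling of an ample divisor ends with a minimal model, by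
Birkar-Cascini-Hacon-McKernan.

(2) Let `X` have canonical singularities, and `Δ = 0`. Then `K_X` is pseudo-effective if and only if
`W j ≥ 2` for all `j`; in this case `κ(X) = ν(X) = p + #{j | W j > 2}`; otherwise
`κ(X) = ν(X) = -∞`. The MMP with scaling of an ample divisor ends with a minimal model in the first
case (`κ = ν` gives a good minimal model by Gongyo-Lehmann, and then the MMP terminates by Birkar) and
with a Mori fibre space in the second case (Birkar-Cascini-Hacon-McKernan).

The language and the definitions of `Pool.Agent.Y172` are used: `X` is given by the homogeneous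
coordinates `y` of its generic point, with values in the function field `K` of `X`; the prime divisors
of `X` are places `P` of `K`, `P.ord` is the order along `P`.
-/

set_option autoImplicit false

open FF Pool.Agent.W602.GT Pool.Agent.Y172 Pool.Agent.Y191

namespace Pool.Agent.Results.MP_a27c81_ag.SuperellipticPairs

section

variable {K : Type} [Field K] [Algebra ℂ K] {N : ℕ}

/-- `(X, Δ)` is a projective pair of dimension `n`: `X` is normal, with generic point `y`, and `Δ` is
an effective `ℚ`-divisor. -/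
def IsPair (y : Fin (N + 1) → K) (n : ℕ) (Δ : Place ℂ K → ℚ) : Prop :=
  NormalModel y ∧ Algebra.trdeg ℂ K = n ∧ Effective y Δ

/-- The `b j` are the coordinates of a rational map whose image has dimension `p` and is not
contained in one of the hyperplanes `ℓ i = 0`. -/
def IsMap {v q : ℕ} (ℓ : Fin q → Fin (v + 1) → ℂ) (b : Fin (v + 1) → K) (p : ℕ) : Prop :=
  (∀ i, lf (ℓ i) b ≠ 0) ∧ (∃ j, b j ≠ 0) ∧ Algebra.trdeg ℂ (RF ℂ b) = p

/-- Let `F` be the algebraic closure of `L` in `K`. The field `K` is generated over `F` by elements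
`x j`, `z j` with `z j ^ m j = c j * ∏ k, g j k (x j) ^ a j k`, where the `x j` are algebraically
independent over `F`, `m j ≥ 1`, `c j` is a nonzero element of `F`, and the `g j k` are polynomials
over `F` of degree `d j k`, square free and pairwise without common roots for given `j`. -/
def CyclicFibres (L : IntermediateField ℂ K) {e : ℕ} (m s : Fin e → ℕ)
    (d a : ∀ j, Fin (s j) → ℕ) : Prop :=
  ∃ (x z c : Fin e → K) (g : ∀ j, Fin (s j) → Polynomial (acl ℂ (L : Set K))),
    CycData (acl ℂ (L : Set K)) x z m s g a c ∧ ∀ j k, (g j k).natDegree = d j k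

end

/-- `W = ∑ k, d k * (1 - gcd (m, a k) / m) + 1 - gcd (m, ∑ k, a k * d k) / m` -/
def weight (m : ℕ) {s : ℕ} (d a : Fin s → ℕ) : ℚ :=
  ∑ k, d k * (1 - (m.gcd (a k) : ℚ) / m) + (1 - (m.gcd (∑ k, a k * d k) : ℚ) / m)

/-- The Kodaira dimension and the numerical dimension (with respect to any effective integral
divisor) of `K_X + Δ` are `k`. -/
def DimEq {K : Type} [Field K] [Algebra ℂ K] {N : ℕ} (y : Fin (N + 1) → K) (n : ℕ)
    (Δ : Place ℂ K → ℚ) (k : ℕ) : Prop :=
  kodairaDim y n Δ = (k : WithBot ℕ) ∧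
    ∀ A, Effective y A → Integral y A → numericalDim y n Δ A = (k : EReal)

/-- If all `W j` are greater than `2` then `K_X + Δ` is big. If `X` has canonical singularities and
`Δ = 0` then: if all `W j` are at least `2`, the Kodaira dimension and the numerical dimension of `K_X`
are `p` plus the number of the `j` with `W j > 2`; otherwise both are `-∞`. -/
def Models {K : Type} [Field K] [Algebra ℂ K] {N : ℕ} (y : Fin (N + 1) → K) (n : ℕ)
    (Δ : Place ℂ K → ℚ) (p : ℕ) {e : ℕ} (W : Fin e → ℚ) : Prop :=
  ((∀ j, 2 < W j) → DimEq y n Δ n) ∧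
  (Canonical y n → Δ = 0 →
    ((∀ j, 2 ≤ W j) → DimEq y n 0 (p + (Finset.univ.filter fun j => 2 < W j).card)) ∧
    ((∃ j, W j < 2) → kodairaDim y n 0 = ⊥ ∧ ∀ A, Effective y A → numericalDim y n 0 A = ⊥))

theorem wsum_eq {K : Type} [Field K] [Algebra ℂ K] {F : IntermediateField ℂ K} {e : ℕ}
    {m s : Fin e → ℕ} {g : ∀ j, Fin (s j) → Polynomial F} {a d : ∀ j, Fin (s j) → ℕ}
    (hd : ∀ j k, (g j k).natDegree = d j k) (j : Fin e) :
    wsum m s g a j = weight (m j) (d j) (a j) := by
  unfold wsum weight wtc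
  simp only [hd]

/-- the number of large weights -/
theorem exists_idx {e : ℕ} (W : Fin e → ℚ) :
    ∃ κ : Fin (Finset.univ.filter fun j => 2 < W j).card → Fin e, Function.Injective κ ∧
      ∀ i, 2 < W (κ i) := by
  classical
  let φ := (Finset.univ.filter fun j => 2 < W j).equivFin
  exact ⟨fun i => (φ.symm i : Fin e), fun a b hab => φ.symm.injective (Subtype.ext hab),
    fun i => (Finset.mem_filter.1 (φ.symm i).2).2⟩

/-- polynomial rings in no variables have no irreducible elements -/
theorem no_irr {F : Type*} [Field F] {σ : Type*} [IsEmpty σ] (g : MvPolynomial σ F)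
    (hg : Irreducible g) : False := by
  have h1 : g = MvPolynomial.C (MvPolynomial.coeff 0 g) := MvPolynomial.eq_C_of_isEmpty g
  have h2 : MvPolynomial.coeff 0 g ≠ 0 := fun h => hg.ne_zero (by rw [h1, h, map_zero])
  exact hg.not_isUnit (by rw [h1]; exact (isUnit_iff_ne_zero.2 h2).map MvPolynomial.C)

/-- the empty family is a transcendence basis of `K` over `K` -/
theorem tb_top {K : Type} [Field K] [Algebra ℂ K] {ι : Type} [IsEmpty ι] (x : ι → K) :
    IsTranscendenceBasis (⊤ : IntermediateField ℂ K) x := by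
  rw [isTranscendenceBasis_iff_algebraicIndependent_isAlgebraic]
  constructor
  · exact algebraicIndependent_empty_type_iff.2
      (algebraMap (⊤ : IntermediateField ℂ K) K).injective
  · constructor
    intro z
    have h1 : IsAlgebraic (⊤ : IntermediateField ℂ K) z :=
      isAlgebraic_algebraMap (⟨z, IntermediateField.mem_top⟩ : (⊤ : IntermediateField ℂ K))
    exact h1.extendScalars (algebraMap (⊤ : IntermediateField ℂ K)
      (Algebra.adjoin (⊤ : IntermediateField ℂ K) (Set.range x))).injective

/-- The Kodaira dimension and the numerical dimension of a big divisor are the dimension. -/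
theorem big_dim {K : Type} [Field K] [Algebra ℂ K] {N n : ℕ} {y : Fin (N + 1) → K}
    {Δ : Place ℂ K → ℚ} (hy : IsPair y n Δ)
    (hK : KodairaGe n {P | IsPrimeDivisor y P} (fun P => (Δ P : ℝ)) n) : DimEq y n Δ n := by
  have h := (lc_ab (K' := K) (c := 0) (r := fun _ => 0) (q := fun _ => 0) (L := ⊤)
    (A := fun j => j.elim0) (u := fun s => s.1.elim0) (w := fun j => j.elim0) hy.1 hy.2.1 hy.2.2
    (fun j => j.elim0) (tb_top _) (fun j => j.elim0) (fun j => j.elim0) (fun j => j.elim0)
    (fun a P g hg _ => (no_irr g hg).elim)).2 n (fun j => j.elim0) (by simp) hK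
  exact h

theorem models_of {K : Type} [Field K] [Algebra ℂ K] {N p e : ℕ} {y : Fin (N + 1) → K}
    {Δ : Place ℂ K → ℚ}
    {L : IntermediateField ℂ K} {m s : Fin e → ℕ} {d a : ∀ j, Fin (s j) → ℕ}
    (hy : IsPair y (p + e) Δ) {x z c : Fin e → K}
    {g : ∀ j, Fin (s j) → Polynomial (acl ℂ (L : Set K))}
    (h : CycData (acl ℂ (L : Set K)) x z m s g a c) (hd : ∀ j k, (g j k).natDegree = d j k)
    (hK : (∀ j, 2 ≤ weight (m j) (d j) (a j)) → KodairaGe (p + e) {P | IsPrimeDivisor y P}
      (fun P => (Δ P : ℝ)) (p + (Finset.univ.filter fun j => 2 < weight (m j) (d j) (a j)).card)) :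
    Models y (p + e) Δ p fun j => weight (m j) (d j) (a j) := by
  classical
  refine ⟨fun hs => ?_, fun hcan h0 => ?_⟩
  · have h1 := hK fun j => (hs j).le
    have h2 : (Finset.univ.filter fun j => 2 < weight (m j) (d j) (a j)).card = e := by
      rw [Finset.filter_true_of_mem fun j _ => hs j, Finset.card_univ, Fintype.card_fin]
    rw [h2] at h1
    exact big_dim hy h1
  · subst h0
    obtain ⟨h1, h2⟩ := cyc_can hy.1 hy.2.1 hcan (acl_closed (L : Set K)) h
    simp only [wsum_eq hd] at h1 h2
    refine ⟨fun hw => h2 _ hw ?_ (by simpa using hK hw), h1⟩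
    rw [add_assoc]
    congr 1
    have h3 := Finset.card_filter_add_card_filter_not (s := (Finset.univ : Finset (Fin e)))
      (fun j => 2 < weight (m j) (d j) (a j))
    rw [Finset.card_univ, Fintype.card_fin] at h3
    have h4 : (Finset.univ.filter fun j => ¬ 2 < weight (m j) (d j) (a j)) =
        Finset.univ.filter fun j => weight (m j) (d j) (a j) = 2 := by
      refine Finset.filter_congr fun j _ => ?_
      rw [not_lt]
      exact ⟨fun h => le_antisymm h (hw j), fun h => h.le⟩
    rw [h4] at h3
    exact h3.symm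

/-- **Minimal models.** Let `(X, Δ)` be a projective pair of dimension `p + e`, `b` the coordinates of
a rational map `X ⇢ P^v` whose image `Y` has dimension `p`, and let `X` be birational to a fibre
product of `e` cyclic covers as in `CyclicFibres`, over the field `RF ℂ b` of `Y`.

(1) Let `ℓ i = 0` be hyperplanes in general position which do not contain the image and impose
independent conditions on the forms of degree `D`, with weights `wt i ≥ 0` whose sum is greater than
`(p + 1) * γ`, where `γ = (v - p + D).choose (v - p)`, and let the multiplicities `e i` satisfy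
`min (#{i | e i ≠ 0}) γ ≤ γ Δ_P + ∑ i, (1 - wt i) e i` at all prime divisors `P` of `X`. Then
`K_X + Δ` is big if `W j > 2` for all `j`; and if `X` has canonical singularities and `Δ = 0` then
`κ(X) = ν(X)` is `p` plus the number of the `j` with `W j > 2` if `W j ≥ 2` for all `j`, and `-∞`
otherwise.

(2) Let `m' ≥ 2`, `2 * v * m' ≤ Q * (m' - 1)` and `(v + Q).choose v < q`. For `q` general hyperplanes
(some polynomial `Ψ` does not vanish at the coefficients) the following holds: if `p ≥ 1` and the
multiplicities `e i` at the prime divisors `P` of `X` are `0` or at least `m' * (1 - Δ_P)`, then the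
conclusions of (1) hold. -/
theorem result {v q : ℕ} (hv : 1 ≤ v) :
    (∀ D p : ℕ, 0 < D → ∀ ℓ : Fin q → Fin (v + 1) → ℂ, Independent D ℓ → GeneralPosition ℓ →
      v + 1 ≤ q → ∀ (K : Type) [Field K] [Algebra ℂ K] (N e : ℕ) (m s : Fin e → ℕ)
      (d a : ∀ j, Fin (s j) → ℕ) (y : Fin (N + 1) → K) (Δ : Place ℂ K → ℚ), IsPair y (p + e) Δ →
      ∀ b : Fin (v + 1) → K, IsMap ℓ b p → ∀ wt : Fin q → ℚ, (∀ i, 0 ≤ wt i) →
      (((p + 1) * (v - p + D).choose (v - p) : ℕ) : ℚ) < ∑ i, wt i →
      (∀ P, IsPrimeDivisor y P → ∀ (c : ℤ) (e : Fin q → ℕ), OrdData P ℓ b c e →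
        ((min (Finset.univ.filter fun i => e i ≠ 0).card ((v - p + D).choose (v - p)) : ℕ) : ℚ) ≤
          ((v - p + D).choose (v - p) : ℕ) * Δ P + ∑ i, (1 - wt i) * e i) →
      CyclicFibres (RF ℂ b) m s d a →
      Models y (p + e) Δ p fun j => weight (m j) (d j) (a j)) ∧
    ∀ m' Q : ℕ, 2 ≤ m' → 2 * v * m' ≤ Q * (m' - 1) → (v + Q).choose v < q →
      ∃ Ψ : MvPolynomial (Fin q × Fin (v + 1)) ℂ, Ψ ≠ 0 ∧
        ∀ ℓ : Fin q → Fin (v + 1) → ℂ, MvPolynomial.eval (fun x => ℓ x.1 x.2) Ψ ≠ 0 →
        ∀ (K : Type) [Field K] [Algebra ℂ K] (N p e : ℕ) (m s : Fin e → ℕ)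
        (d a : ∀ j, Fin (s j) → ℕ) (y : Fin (N + 1) → K) (Δ : Place ℂ K → ℚ), 1 ≤ p →
        IsPair y (p + e) Δ → ∀ b : Fin (v + 1) → K, IsMap ℓ b p →
        (∀ P, IsPrimeDivisor y P → ∀ (c : ℤ) (e : Fin q → ℕ), OrdData P ℓ b c e →
          ∀ i, e i = 0 ∨ m' * (1 - Δ P) ≤ e i) →
        CyclicFibres (RF ℂ b) m s d a →
        Models y (p + e) Δ p fun j => weight (m j) (d j) (a j) := by
  constructor
  · rintro D p hD ℓ hI hg hq K _ _ N e m s d a y Δ hy b ⟨hl, hb, htr⟩ wt hwt hlt hmult
      ⟨x, z, c, g, hc, hd⟩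
    refine models_of hy hc hd fun hws => ?_
    obtain ⟨κ, hκ, hκs⟩ := exists_idx fun j => weight (m j) (d j) (a j)
    obtain ⟨M, hM, θ, hθ, hne⟩ := cyc_low (N := p + e) hc
      (fun j => by rw [wsum_eq hd]; exact hws j) hκ (fun i => by rw [wsum_eq hd]; exact hκs i)
      {P | IsPrimeDivisor y P}
    refine (small_fib (δ₁ := fun P => (Δ P : ℝ)) (δ := fun P => (Δ P : ℝ)) hD hI hg hq hl hb htr
      hy.2.1 hwt hlt.le (fun P _ => by simp) (fun P hP _ c e ho => ?_) hM hθ hne).2 hlt
    have h3 := hmult P hP c e ho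
    have h4 := (Rat.cast_le (K := ℝ)).2 h3
    push_cast at h4 ⊢
    exact h4
  · intro m' Q hm hQ hq
    obtain ⟨Ψ, hΨ, h⟩ := general_fib (n := v) (q := q) hv hm hQ hq
    refine ⟨Ψ, hΨ, ?_⟩
    rintro ℓ hℓ K _ _ N p e m s d a y Δ hp hy b ⟨hl, hb, htr⟩ hmult ⟨x, z, c, g, hc, hd⟩
    refine models_of hy hc hd fun hws => ?_
    obtain ⟨κ, hκ, hκs⟩ := exists_idx fun j => weight (m j) (d j) (a j)
    obtain ⟨M, hM, θ, hθ, hne⟩ := cyc_low (N := p + e) hc
      (fun j => by rw [wsum_eq hd]; exact hws j) hκ (fun i => by rw [wsum_eq hd]; exact hκs i)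
      {P | IsPrimeDivisor y P}
    refine h ℓ hℓ K p e _ hp hy.2.1 b hl hb htr {P | IsPrimeDivisor y P}
      (fun P => (Δ P : ℝ)) (fun _ => 0) (fun P => (Δ P : ℝ))
      (fun P hP => by exact_mod_cast hy.2.2.1 P hP) (fun P _ => by simp)
      (fun P hP _ c e ho i => ?_) M hM θ hθ hne
    rcases hmult P hP c e ho i with h1 | h1
    · exact Or.inl h1
    · right
      have h2 := (Rat.cast_le (K := ℝ)).2 h1
      push_cast at h2
      exact h2

end Pool.Agent.Results.MP_a27c81_ag.SuperellipticPairs
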